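import Mathlib

/-!
# The gcd-subtraction recursion for the irreducible polynomial `x ^ 2 + x + 2`
-/

open Polynomial Filter

namespace Pool.Agent.Results.MP_0950f1_nt.EvenValuesDisproof

/-- The recursion with shifted index: `seq P N k` is `a(k + 1)`, so `seq P N 0 = a(1) = N` and
`a(n) = a(n-1) - gcd(a(n-1), P(n))` for `n = k + 2 ≥ 2`. -/
def seq (P : ℤ[X]) (N : ℕ) : ℕ → ℤ
  | 0 => N
  | k + 1 => seq P N k - (Int.gcd (seq P N k) (P.eval ((k : ℤ) + 2)) : ℤ)

/-- `a P N n` is `a_{P,N}(n)` for `n ≥ 1`. -/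
def a (P : ℤ[X]) (N n : ℕ) : ℤ := seq P N (n - 1)

/-- `f P N = min {n ≥ 1 : a_{P,N}(n) = 0}`. -/
noncomputable def f (P : ℤ[X]) (N : ℕ) : ℕ := sInf {n : ℕ | 1 ≤ n ∧ a P N n = 0}

lemma even_step (P : ℤ[X]) (hP : ∀ n : ℤ, 2 ∣ P.eval n) (N : ℕ) :
    ∀ m : ℕ, ∀ k : ℕ, seq P N k = 2 * (m : ℤ) → ∃ j ≤ m, seq P N (k + j) = 0 := by
  intro m
  induction m using Nat.strong_induction_on with
  | _ m ih =>
    intro k hk
    rcases Nat.eq_zero_or_pos m with h0 | hpos
    · subst h0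
      exact ⟨0, le_rfl, by simpa using hk⟩
    · set g : ℕ := Int.gcd (seq P N k) (P.eval ((k : ℤ) + 2)) with hg
      have hstep : seq P N (k + 1) = seq P N k - g := by rw [seq]
      have h2g : (2 : ℤ) ∣ g := by
        apply Int.dvd_coe_gcd
        · rw [hk]; exact dvd_mul_right _ _
        · exact hP _
      have hgd : (g : ℤ) ∣ 2 * (m : ℤ) := by
        rw [← hk]; exact Int.gcd_dvd_left _ _
      have hm : (0 : ℤ) < 2 * (m : ℤ) := by positivity
      have hgle : (g : ℤ) ≤ 2 * m := Int.le_of_dvd hm hgd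
      have hg0 : (0 : ℤ) < g := by
        have : g ≠ 0 := by
          intro h
          rw [h] at hgd
          have := zero_dvd_iff.mp (by simpa using hgd)
          omega
        omega
      obtain ⟨t, ht⟩ := h2g
      have ht0 : 0 < t := by omega
      obtain ⟨m', hm'⟩ : ∃ m' : ℕ, (m' : ℤ) = m - t := ⟨(m - t : ℤ).toNat, by omega⟩
      have hlt : m' < m := by omega
      obtain ⟨j, hj, hz⟩ := ih m' hlt (k + 1) (by rw [hstep, hk, ht, hm']; ring)
      exact ⟨j + 1, by omega, by rw [← hz]; congr 1; ring⟩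

/-- If all values of `P` are even, the zero time is at most `(N + 3) / 2`. -/
lemma zero_time (P : ℤ[X]) (hP : ∀ n : ℤ, 2 ∣ P.eval n) (N : ℕ) (hN : 1 ≤ N) :
    ∃ n : ℕ, 1 ≤ n ∧ a P N n = 0 ∧ 2 * n ≤ N + 3 := by
  set g : ℕ := Int.gcd (seq P N 0) (P.eval ((0 : ℕ) + 2)) with hg
  have hstep : seq P N 1 = N - g := by
    rw [seq, ← hg]; rfl
  have hgd : g ∣ N := by
    have : (g : ℤ) ∣ (N : ℤ) := Int.gcd_dvd_left _ _
    exact_mod_cast this
  have hgle : g ≤ N := Nat.le_of_dvd hN hgd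
  have hg0 : 0 < g := Nat.pos_of_dvd_of_pos hgd hN
  have heven : 2 ∣ N - g := by
    by_cases h : 2 ∣ N
    · have : (2 : ℤ) ∣ g := by
        apply Int.dvd_coe_gcd
        · have h' : (2 : ℤ) ∣ (N : ℤ) := by exact_mod_cast h
          exact h'
        · exact hP _
      have : 2 ∣ g := by exact_mod_cast this
      omega
    · have : ¬ 2 ∣ g := fun h' => h (h'.trans hgd)
      omega
  obtain ⟨m, hm⟩ := heven
  obtain ⟨j, hj, hz⟩ := even_step P hP N m 1 (by rw [hstep]; omega)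
  refine ⟨j + 2, by omega, ?_, by omega⟩
  unfold a
  rw [← hz]
  congr 1
  omega

lemma f_le (P : ℤ[X]) (hP : ∀ n : ℤ, 2 ∣ P.eval n) (N : ℕ) (hN : 1 ≤ N) :
    2 * f P N ≤ N + 3 := by
  obtain ⟨n, h1, h2, h3⟩ := zero_time P hP N hN
  have : f P N ≤ n := Nat.sInf_le ⟨h1, h2⟩
  omega

/-- The polynomial `x ^ 2 + x + 2`. -/
noncomputable def P₀ : ℤ[X] := X ^ 2 + X + 2

lemma eval_P₀ (n : ℤ) : P₀.eval n = n ^ 2 + n + 2 := by
  simp [P₀]

lemma natDegree_P₀ : P₀.natDegree = 2 := by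
  unfold P₀
  compute_degree!

lemma monic_P₀ : P₀.Monic := by
  unfold P₀
  monicity!

lemma irreducible_P₀ : Irreducible P₀ := by
  have hne : P₀ ≠ 1 := by
    intro h
    have := natDegree_P₀
    rw [h] at this
    simp at this
  rw [monic_P₀.irreducible_iff_natDegree']
  refine ⟨hne, ?_⟩
  intro f g hf hg hfg hdeg
  rw [natDegree_P₀] at hdeg
  have hd : g.natDegree = 1 := by
    rw [Finset.mem_Ioc] at hdeg
    omega
  have hroot : ∃ x : ℤ, g = X + C x := by
    refine ⟨g.coeff 0, ?_⟩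
    have := hg.eq_X_add_C hd
    exact this
  obtain ⟨x, hx⟩ := hroot
  have h0 : P₀.eval (-x) = 0 := by
    rw [← hfg, eval_mul, hx]
    simp
  rw [eval_P₀] at h0
  nlinarith [sq_nonneg (2 * (-x) + 1)]

/-- The assertion of the question fails for the irreducible polynomial `P = x ^ 2 + x + 2`,
all of whose values are even: `P(n) ≥ 0` for `n ≥ 1`, `P(n) → ∞`, the zero time `f_P(N)`
is attained for every `N ≥ 1` and `2 f_P(N) ≤ N + 3`; in particular
`f_P(N) ≤ (1 - δ) N` for all large `N`, for some `δ > 0`, and `limsup f_P(N) / N ≤ 1 / 2`. -/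
theorem result : ∃ P : ℤ[X], Irreducible P ∧ (∀ n : ℤ, 1 ≤ n → 0 ≤ P.eval n) ∧
    Tendsto (fun n : ℕ => P.eval (n : ℤ)) atTop atTop ∧
    (∀ N : ℕ, 1 ≤ N → ∃ n : ℕ, 1 ≤ n ∧ a P N n = 0) ∧
    (∀ N : ℕ, 1 ≤ N → 2 * f P N ≤ N + 3) ∧
    (∃ δ : ℝ, 0 < δ ∧ ∀ᶠ N : ℕ in atTop, (f P N : ℝ) ≤ (1 - δ) * N) ∧
    limsup (fun N : ℕ => (f P N : ℝ) / N) atTop ≤ 1 / 2 := by
  have heven : ∀ n : ℤ, 2 ∣ P₀.eval n := by
    intro n
    rw [eval_P₀]
    have : (2 : ℤ) ∣ n * (n + 1) := (Int.even_mul_succ_self n).two_dvd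
    have h2 : n ^ 2 + n + 2 = n * (n + 1) + 2 := by ring
    rw [h2]
    exact dvd_add this dvd_rfl
  have hf := f_le P₀ heven
  have hreal : ∀ N : ℕ, 1 ≤ N → (f P₀ N : ℝ) ≤ (N + 3) / 2 := by
    intro N hN
    have : ((2 * f P₀ N : ℕ) : ℝ) ≤ ((N + 3 : ℕ) : ℝ) := by exact_mod_cast hf N hN
    push_cast at this
    linarith
  refine ⟨P₀, irreducible_P₀, ?_, ?_, ?_, hf, ?_, ?_⟩
  · intro n hn
    rw [eval_P₀]
    positivity
  · apply tendsto_atTop_mono (f := fun n : ℕ => (n : ℤ))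
    · intro n
      rw [eval_P₀]
      nlinarith [sq_nonneg ((n : ℤ))]
    · exact tendsto_natCast_atTop_atTop
  · intro N hN
    obtain ⟨n, h1, h2, _⟩ := zero_time P₀ heven N hN
    exact ⟨n, h1, h2⟩
  · refine ⟨1 / 4, by norm_num, ?_⟩
    filter_upwards [eventually_ge_atTop 6] with N hN
    have h := hreal N (by omega)
    have hN' : (6 : ℝ) ≤ N := by exact_mod_cast hN
    linarith
  · have hbound : ∀ ε : ℝ, 0 < ε →
        limsup (fun N : ℕ => (f P₀ N : ℝ) / N) atTop ≤ 1 / 2 + ε := by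
      intro ε hε
      apply limsup_le_of_le
      · apply IsCoboundedUnder.of_frequently_ge (a := 0)
        apply Frequently.of_forall
        intro N
        positivity
      · obtain ⟨K, hK⟩ := exists_nat_gt (3 / (2 * ε))
        filter_upwards [eventually_ge_atTop (max K 1)] with N hN
        have hN1 : 1 ≤ N := le_trans (le_max_right _ _) hN
        have hNK : K ≤ N := le_trans (le_max_left _ _) hN
        have hNpos : (0 : ℝ) < N := by exact_mod_cast hN1
        have h := hreal N hN1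
        rw [div_le_iff₀ hNpos]
        have h2 : 3 / (2 * ε) < N := lt_of_lt_of_le hK (by exact_mod_cast hNK)
        rw [div_lt_iff₀ (by positivity)] at h2
        nlinarith
    apply le_of_forall_pos_le_add
    intro ε hε
    exact hbound ε hε

end Pool.Agent.Results.MP_0950f1_nt.EvenValuesDisproof
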